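import Pool.Agent.TH803.CL.Geo

set_option autoImplicit false

/-!
SW project (helper745, MP_6bc78b_nt): the clusters, and the trace inequality with a general kernel.
-/

open scoped BigOperators ComplexConjugate

namespace Pool.Agent.Y833.SW

open H370 TH803UC TH803CL

/-- the cluster with label `a` -/
noncomputable def Cl (Z : Finset ℂ) (π : ℂ → ℂ) (a : ℂ) : Finset ℂ :=
  (Z.filter (fun z => 0 ≤ z.im)).filter (fun z => π z = a)

/-- **the trace inequality for clusters**, general kernel -/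
theorem clus {E : Type*} [NormedAddCommGroup E] [InnerProductSpace ℂ E]
    (K : ℂ → ℂ → ℂ) (k : ℂ → E) (hk : ∀ z w, inner ℂ (k z) (k w) = K ((starRingEnd ℂ) z) w)
    (hsym : ∀ z w, K z w = K w z)
    (Z : Finset ℂ) (hZ : ∀ z ∈ Z, (starRingEnd ℂ) z ∈ Z) (m : ℂ → ℕ)
    (hm1 : ∀ z ∈ Z, 1 ≤ m z) (hmc : ∀ z ∈ Z, m ((starRingEnd ℂ) z) = m z)
    (π : ℂ → ℂ) (κ : ℂ → ℝ) (hκ0 : ∀ a, 0 ≤ κ a) (hκ2 : ∀ a, κ a ≤ 2) :
    ∑ a ∈ (Z.filter (fun z => 0 ≤ z.im)).image π,
        (∑ z ∈ Cl Z π a, ∑ w ∈ Cl Z π a, κ a / Wc Z m π a * (cw m z * cw m w) *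
          ((K ((starRingEnd ℂ) z) w).re + (K ((starRingEnd ℂ) z) ((starRingEnd ℂ) w)).re) - κ a ^ 2 -
          ∑ z ∈ Cl Z π a, 2 * cw m z * ((K ((starRingEnd ℂ) z) z).re - (K z z).re)) ≤
      (∑ z ∈ Z, ∑ w ∈ Z, (m z : ℂ) * (m w : ℂ) * (K z w) ^ 2).re := by
  set P := Z.filter (fun z => 0 ≤ z.im) with hP
  have hPm : ∀ z ∈ P, z ∈ Z ∧ 0 ≤ z.im := fun z hz => by rwa [hP, Finset.mem_filter] at hz
  set W := Wc Z m π with hW
  have hW1 : ∀ a ∈ P.image π, 1 ≤ W a := by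
    intro a ha
    rw [Finset.mem_image] at ha
    obtain ⟨z, hz, rfl⟩ := ha
    exact (cw_ge hm1 (hPm z hz).1).trans (Wc_ge hz)
  set D : ℂ → ℂ → ℝ := fun z w => if π z = π w then
    κ (π z) / W (π z) * (Real.sqrt (cw m z) * Real.sqrt (cw m w)) else 0 with hD
  have hWdef : ∀ a, W a = ∑ z ∈ P.filter (fun z => π z = a), cw m z := fun a => rfl
  have hD2 : ∀ v : ℂ → ℂ, ∑ i ∈ P, ∑ j ∈ P, D i j * ((starRingEnd ℂ (v i)) * v j).re ≤
        2 * ∑ i ∈ P, ‖v i‖ ^ 2 := by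
    intro v
    have e1 : ∀ i ∈ P, ∀ j ∈ P, D i j * ((starRingEnd ℂ (v i)) * v j).re =
        if π i = π j then κ (π i) / W (π i) * (Real.sqrt (cw m i) * Real.sqrt (cw m j)) *
          ((starRingEnd ℂ (v i)) * v j).re else 0 := by
      intro i _ j _
      simp only [hD]
      split_ifs <;> simp
    rw [Finset.sum_congr rfl fun i hi => Finset.sum_congr rfl fun j hj => e1 i hi j hj,
      sum_fib, sum_fib1 P π (fun i => ‖v i‖ ^ 2), Finset.mul_sum]
    refine Finset.sum_le_sum fun a ha => ?_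
    set C := P.filter (fun z => π z = a) with hC
    have hWa := hW1 a ha
    have hWa0 : 0 < W a := by linarith
    have h1 : ∑ i ∈ C, ∑ j ∈ C, κ (π i) / W (π i) * (Real.sqrt (cw m i) * Real.sqrt (cw m j)) *
          ((starRingEnd ℂ (v i)) * v j).re ≤ κ a / W a *
          (∑ i ∈ C, Real.sqrt (cw m i) * ‖v i‖) ^ 2 := by
      rw [sq, Finset.sum_mul_sum, Finset.mul_sum]
      refine Finset.sum_le_sum fun i hi => ?_
      rw [Finset.mul_sum]
      refine Finset.sum_le_sum fun j hj => ?_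
      have hi2 : π i = a := (Finset.mem_filter.1 hi).2
      rw [hi2]
      have h2 : ((starRingEnd ℂ (v i)) * v j).re ≤ ‖v i‖ * ‖v j‖ := by
        refine (Complex.re_le_norm _).trans ?_
        rw [norm_mul, RCLike.norm_conj]
      have h3 : 0 ≤ κ a / W a := div_nonneg (hκ0 a) hWa0.le
      calc κ a / W a * (Real.sqrt (cw m i) * Real.sqrt (cw m j)) *
          ((starRingEnd ℂ (v i)) * v j).re ≤
          κ a / W a * (Real.sqrt (cw m i) * Real.sqrt (cw m j)) * (‖v i‖ * ‖v j‖) := by gcongr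
        _ = _ := by ring
    refine h1.trans ?_
    have h4 : (∑ i ∈ C, Real.sqrt (cw m i) * ‖v i‖) ^ 2 ≤
        (∑ i ∈ C, (Real.sqrt (cw m i)) ^ 2) * (∑ i ∈ C, ‖v i‖ ^ 2) :=
      Finset.sum_mul_sq_le_sq_mul_sq C _ _
    have h5 : ∑ i ∈ C, (Real.sqrt (cw m i)) ^ 2 = W a := by
      rw [hWdef]
      exact Finset.sum_congr rfl fun i _ => Real.sq_sqrt (cw_nonneg m i)
    rw [h5] at h4
    have h6 : 0 ≤ κ a / W a := div_nonneg (hκ0 a) hWa0.le
    have h7 : 0 ≤ ∑ i ∈ C, ‖v i‖ ^ 2 := Finset.sum_nonneg fun i _ => by positivity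
    calc κ a / W a * (∑ i ∈ C, Real.sqrt (cw m i) * ‖v i‖) ^ 2 ≤
        κ a / W a * (W a * ∑ i ∈ C, ‖v i‖ ^ 2) := by gcongr
      _ = κ a * ∑ i ∈ C, ‖v i‖ ^ 2 := by field_simp
      _ ≤ 2 * ∑ i ∈ C, ‖v i‖ ^ 2 := by
        gcongr
        exact hκ2 a
  have hmain := trace_D K k hk hsym Z hZ m hmc D hD2
  rw [← hP] at hmain
  have e2 : ∀ z ∈ P, ∀ w ∈ P, (2 * (D z w * (Real.sqrt (cw m z / 4) * Real.sqrt (cw m w / 4) *
          (2 * (K ((starRingEnd ℂ) z) w).re +
            2 * (K ((starRingEnd ℂ) z) ((starRingEnd ℂ) w)).re))) - (D z w) ^ 2) =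
      if π z = π w then κ (π z) / W (π z) * (cw m z * cw m w) *
        ((K ((starRingEnd ℂ) z) w).re + (K ((starRingEnd ℂ) z) ((starRingEnd ℂ) w)).re) -
          (κ (π z) / W (π z)) ^ 2 * (cw m z * cw m w) else 0 := by
    intro z _ w _
    have s1 : ∀ u : ℂ, Real.sqrt (cw m u / 4) = Real.sqrt (cw m u) / 2 := by
      intro u
      rw [Real.sqrt_div (cw_nonneg m u), show (4 : ℝ) = 2 ^ 2 by norm_num,
        Real.sqrt_sq (by norm_num)]
    have s2 : ∀ u : ℂ, Real.sqrt (cw m u) * Real.sqrt (cw m u) = cw m u :=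
      fun u => Real.mul_self_sqrt (cw_nonneg m u)
    simp only [hD, s1]
    split_ifs with h
    · set A := (K ((starRingEnd ℂ) z) w).re
      set B := (K ((starRingEnd ℂ) z) ((starRingEnd ℂ) w)).re
      set q := κ (π z) / W (π z)
      calc _ = q * ((Real.sqrt (cw m z) * Real.sqrt (cw m z)) *
            (Real.sqrt (cw m w) * Real.sqrt (cw m w))) * (A + B) -
            q ^ 2 * ((Real.sqrt (cw m z) * Real.sqrt (cw m z)) *
            (Real.sqrt (cw m w) * Real.sqrt (cw m w))) := by ring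
        _ = _ := by rw [s2, s2]
    · simp
  rw [Finset.sum_congr rfl fun z hz => Finset.sum_congr rfl fun w hw => e2 z hz w hw,
    sum_fib, sum_fib1 P π (fun z => 2 * cw m z *
      ((K ((starRingEnd ℂ) z) z).re - (K z z).re))] at hmain
  rw [Finset.sum_sub_distrib]
  refine le_trans (sub_le_sub_right (Finset.sum_le_sum fun a ha => ?_) _) (sub_le_iff_le_add.2 hmain)
  -- the double sum in one cluster
  show _ ≤ ∑ z ∈ Cl Z π a, ∑ w ∈ Cl Z π a, _
  have hWa := hW1 a ha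
  have hWa0 : 0 < W a := by linarith
  have hCm : ∀ z ∈ Cl Z π a, π z = a := fun z hz => (Finset.mem_filter.1 hz).2
  have e3 : ∑ z ∈ Cl Z π a, ∑ w ∈ Cl Z π a, (κ a / W a) ^ 2 * (cw m z * cw m w) = κ a ^ 2 := by
    have : ∑ z ∈ Cl Z π a, ∑ w ∈ Cl Z π a, (κ a / W a) ^ 2 * (cw m z * cw m w) =
        (κ a / W a) ^ 2 * ((∑ z ∈ Cl Z π a, cw m z) * ∑ z ∈ Cl Z π a, cw m z) := by
      rw [Finset.sum_mul_sum, Finset.mul_sum]
      refine Finset.sum_congr rfl fun z _ => ?_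
      rw [Finset.mul_sum]
    have e4 : ∑ z ∈ Cl Z π a, cw m z = W a := rfl
    rw [this, e4]
    field_simp
  rw [← e3, ← Finset.sum_sub_distrib]
  refine le_of_eq (Finset.sum_congr rfl fun z hz => ?_)
  rw [← Finset.sum_sub_distrib]
  refine Finset.sum_congr rfl fun w hw => ?_
  rw [hCm z hz]

/-- the structure of the clusters -/
lemma clusters (Z : Finset ℂ) (hZ : ∀ z ∈ Z, (starRingEnd ℂ) z ∈ Z) (m : ℂ → ℕ)
    (hm1 : ∀ z ∈ Z, 1 ≤ m z) {d : ℝ} (hd : 0 < d) : ∃ π : ℂ → ℂ,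
    ∀ a ∈ (Z.filter (fun z => 0 ≤ z.im)).image π,
      (a ∈ Z ∧ 0 ≤ a.im ∧ Cl Z π a = {a} ∧ (Wc Z m π a = 1 → a ∈ isoP Z m d)) ∨
      (2 ≤ Wc Z m π a ∧ |a.im| < d ∧ ∀ z ∈ Cl Z π a, |z.im| < d ∧ ‖z - a‖ < 2 * d) := by
  classical
  set P := Z.filter (fun z => 0 ≤ z.im) with hP
  have hPm : ∀ z ∈ P, z ∈ Z ∧ 0 ≤ z.im := fun z hz => by rwa [hP, Finset.mem_filter] at hz
  set S := P.filter (fun z => |z.im| < d ∧ ∃ w ∈ P, w ≠ z ∧ |w.im| < d ∧ ‖z - w‖ < d) with hS
  have hSm : ∀ z ∈ S, z ∈ P ∧ |z.im| < d ∧ ∃ w ∈ P, w ≠ z ∧ |w.im| < d ∧ ‖z - w‖ < d :=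
    fun z hz => Finset.mem_filter.1 hz
  obtain ⟨ρ, hρS, hρd, hρ2⟩ := pairing S hd (by
    intro z hz
    obtain ⟨h1, h2, w, hw, hwz, hwi, hwd⟩ := hSm z hz
    refine ⟨w, Finset.mem_filter.2 ⟨hw, hwi, z, h1, Ne.symm hwz, h2, ?_⟩, hwz, hwd⟩
    rwa [norm_sub_rev])
  set π : ℂ → ℂ := fun z => if z ∈ S then ρ z else z with hπ
  have hπS : ∀ z ∈ S, π z = ρ z := fun z hz => by simp only [hπ]; rw [if_pos hz]
  have hπN : ∀ z, z ∉ S → π z = z := fun z hz => by simp only [hπ]; rw [if_neg hz]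
  have hclose : ∀ z w, π z = π w → z = w ∨ (z ∈ S ∧ w ∈ S) := by
    intro z w h
    by_cases hz : z ∈ S
    · by_cases hw : w ∈ S
      · exact Or.inr ⟨hz, hw⟩
      · exfalso
        rw [hπS z hz, hπN w hw] at h
        exact hw (h ▸ hρS z hz)
    · by_cases hw : w ∈ S
      · exfalso
        rw [hπN z hz, hπS w hw] at h
        exact hz (h ▸ hρS w hw)
      · left
        rwa [hπN z hz, hπN w hw] at h
  refine ⟨π, fun a ha => ?_⟩
  rw [Finset.mem_image] at ha
  obtain ⟨z, hz, rfl⟩ := ha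
  by_cases hzS : z ∈ S
  · right
    refine ⟨?_, ?_, fun w hw => ?_⟩
    · obtain ⟨u, hu, v, hv, huv, hu2, hv2⟩ := hρ2 z hzS
      have huP := (hSm u hu).1
      have hvP := (hSm v hv).1
      have h1 : cw m u + cw m v ≤ Wc Z m π (π z) := by
        unfold Wc
        rw [← Finset.sum_pair huv]
        refine Finset.sum_le_sum_of_subset_of_nonneg ?_ fun w _ _ => cw_nonneg m w
        intro w hw
        rw [Finset.mem_insert, Finset.mem_singleton] at hw
        rw [Finset.mem_filter]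
        rcases hw with rfl | rfl
        · exact ⟨huP, by rw [hπS _ hu, hπS z hzS, hu2]⟩
        · exact ⟨hvP, by rw [hπS _ hv, hπS z hzS, hv2]⟩
      have h2 := cw_ge hm1 (hPm u huP).1
      have h3 := cw_ge hm1 (hPm v hvP).1
      linarith
    · rw [hπS z hzS]
      exact (hSm _ (hρS z hzS)).2.1
    · obtain ⟨-, hw2⟩ := Finset.mem_filter.1 hw
      have hwS : w ∈ S := by
        rcases hclose w z hw2 with h | h
        · rw [h]; exact hzS
        · exact h.1
      refine ⟨(hSm w hwS).2.1, ?_⟩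
      rw [← hw2, hπS w hwS]
      exact hρd w hwS
  · left
    have hπz := hπN z hzS
    refine ⟨by rw [hπz]; exact (hPm z hz).1, by rw [hπz]; exact (hPm z hz).2, ?_, fun hW => ?_⟩
    · ext w
      rw [Finset.mem_singleton]
      constructor
      · intro hw
        obtain ⟨-, hw2⟩ := Finset.mem_filter.1 hw
        rcases hclose w z hw2 with h | h
        · rw [h, hπz]
        · exact absurd h.2 hzS
      · rintro rfl
        rw [hπz]
        exact Finset.mem_filter.2 ⟨hz, rfl⟩ |> fun h => by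
          unfold Cl
          rw [Finset.mem_filter]
          exact ⟨hz, hπz⟩
    · rw [hπz] at hW ⊢
      have h1 : cw m z ≤ 1 := by
        have := Wc_ge (m := m) (π := π) hz
        rw [hπz, hW] at this
        exact this
      have h2 : z.im = 0 := by
        by_contra hne
        have := cw_two hm1 (hPm z hz).1 hne
        linarith
      have h3 : m z = 1 := by
        have h4 : cw m z = m z := by unfold cw; rw [if_pos h2]
        rw [h4] at h1
        have h5 : m z ≤ 1 := by exact_mod_cast h1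
        have := hm1 z (hPm z hz).1
        omega
      unfold isoP
      rw [Finset.mem_filter]
      refine ⟨(hPm z hz).1, h2, h3, ?_⟩
      have hup : ∀ w ∈ P, w ≠ z → d ≤ ‖z - w‖ := by
        intro w hw hwz
        by_contra hlt
        push Not at hlt
        apply hzS
        rw [hS, Finset.mem_filter]
        refine ⟨hz, by rw [h2, abs_zero]; exact hd, w, hw, hwz, ?_, hlt⟩
        have h6 : w.im = -(z - w).im := by rw [Complex.sub_im, h2]; ring
        rw [h6, abs_neg]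
        exact (Complex.abs_im_le_norm _).trans_lt hlt
      intro w hw hwz
      by_cases hw0 : 0 ≤ w.im
      · exact hup w (Finset.mem_filter.2 ⟨hw, hw0⟩) hwz
      · have h7 : (starRingEnd ℂ) z = z := Complex.conj_eq_iff_im.mpr h2
        have h8 := hup ((starRingEnd ℂ) w) (Finset.mem_filter.2 ⟨hZ w hw, by
          rw [Complex.conj_im]; linarith [not_le.1 hw0]⟩) (by
            intro h
            apply hwz
            have := congrArg (starRingEnd ℂ) h
            rwa [Complex.conj_conj, h7] at this)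
        rwa [← h7, ← map_sub, RCLike.norm_conj] at h8

end Pool.Agent.Y833.SW
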