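import Pool.Agent.H370R2.Gram
import Pool.Agent.H370R2.Kern

set_option autoImplicit false

/-!
SW project (helper745, MP_6bc78b_nt): square roots of the weights and Gram vectors for the kernel `kap`.
-/

namespace Pool.Agent.Y833.SW

open Filter Topology MeasureTheory Complex H370

/-- the principal square root -/
noncomputable def sr (u : ℂ) : ℂ := u ^ ((2 : ℕ) : ℂ)⁻¹

lemma sr_sq (u : ℂ) : sr u ^ 2 = u := Complex.cpow_nat_inv_pow u (by norm_num)

lemma sr_re (u : ℂ) : 0 ≤ (sr u).re := by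
  unfold sr
  rcases eq_or_ne u 0 with rfl | h
  · rw [Complex.zero_cpow (by norm_num)]; simp
  · rw [Complex.cpow_def_of_ne_zero h, Complex.exp_re]
    refine mul_nonneg (Real.exp_pos _).le (Real.cos_nonneg_of_mem_Icc ?_)
    have e1 : (Complex.log u * ((2 : ℕ) : ℂ)⁻¹).im = u.arg / 2 := by
      have : ((2 : ℕ) : ℂ)⁻¹ = ((1 / 2 : ℝ) : ℂ) := by push_cast; norm_num
      rw [this, Complex.im_mul_ofReal, Complex.log_im]; ring
    rw [e1]
    have h1 := Complex.neg_pi_lt_arg u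
    have h2 := Complex.arg_le_pi u
    constructor <;> linarith

lemma sr_real {u : ℂ} (h0 : 0 ≤ u.re) (h1 : u.im = 0) : (starRingEnd ℂ) (sr u) = sr u := by
  have e : u = ((u.re : ℝ) : ℂ) := by
    apply Complex.ext <;> simp [h1]
  unfold sr
  rw [e]
  have e2 : ((2 : ℕ) : ℂ)⁻¹ = (((2 : ℝ)⁻¹ : ℝ) : ℂ) := by push_cast; norm_num
  rw [e2, ← Complex.ofReal_cpow h0, Complex.conj_ofReal]

/-- square roots of the weights -/
lemma exists_om (v : ℂ → ℂ) (hv : ∀ z, v ((starRingEnd ℂ) z) = (starRingEnd ℂ) (v z))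
    (hr : ∀ z : ℂ, z.im = 0 → 0 ≤ (v z).re) : ∃ om : ℂ → ℂ, (∀ z, om z ^ 2 = v z) ∧
      (∀ z, om ((starRingEnd ℂ) z) = (starRingEnd ℂ) (om z)) ∧ (∀ z, 0 ≤ (om z).re) := by
  refine ⟨fun z => if 0 ≤ z.im then sr (v z) else (starRingEnd ℂ) (sr (v ((starRingEnd ℂ) z))),
    fun z => ?_, fun z => ?_, fun z => ?_⟩
  · simp only
    split_ifs with h
    · exact sr_sq _
    · rw [← map_pow, sr_sq, hv, Complex.conj_conj]
  · simp only
    rcases lt_trichotomy z.im 0 with h | h | h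
    · have h1 : (0 : ℝ) ≤ ((starRingEnd ℂ) z).im := by rw [Complex.conj_im]; linarith
      have h2 : ¬ (0 ≤ z.im) := not_le.2 h
      rw [if_pos h1, if_neg h2, Complex.conj_conj]
    · have h3 : (starRingEnd ℂ) z = z := Complex.conj_eq_iff_im.mpr h
      have h4 := hv z
      rw [h3] at h4
      have h5 := sr_real (hr z h) (Complex.conj_eq_iff_im.mp h4.symm)
      simp only [h3, if_pos h.symm.le]
      exact h5.symm
    · have h1 : ¬ ((0 : ℝ) ≤ ((starRingEnd ℂ) z).im) := by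
        rw [Complex.conj_im]; linarith
      rw [if_neg h1, if_pos h.le, Complex.conj_conj]
  · simp only
    split_ifs with h
    · exact sr_re _
    · rw [Complex.conj_re]; exact sr_re _

/-! ### Gram vectors -/

/-- the measure -/
noncomputable def mu1 : Measure ℝ := volume.restrict (Set.Ioc (-1 / 2 : ℝ) (1 / 2))

/-- the vectors -/
noncomputable def gf (Λ : ℝ) (z : ℂ) (x : ℝ) : ℂ := (Real.sqrt (g0 x) : ℂ) * cexp (I * z * (Λ * x))

lemma gf_cont (Λ : ℝ) (z : ℂ) : Continuous (gf Λ z) := by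
  unfold gf
  have := GramAux.g0_cont
  fun_prop

lemma gf_memLp (Λ : ℝ) (z : ℂ) : MemLp (gf Λ z) 2 mu1 := by
  rw [memLp_two_iff_integrable_sq_norm (gf_cont Λ z).aestronglyMeasurable]
  have h := gf_cont Λ z
  have hc : Continuous (fun x : ℝ => ‖gf Λ z x‖ ^ 2) := by fun_prop
  exact hc.integrableOn_Ioc

lemma gf_inner (Λ : ℝ) (z w : ℂ) :
    ∫ x, (starRingEnd ℂ) (gf Λ z x) * gf Λ w x ∂mu1 = kap (Λ * (w - (starRingEnd ℂ) z)) := by
  unfold mu1 kap
  rw [intervalIntegral.integral_of_le (by norm_num)]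
  apply setIntegral_congr_fun measurableSet_Ioc
  intro x hx
  simp only [gf, map_mul, Complex.conj_ofReal, ← Complex.exp_conj, Complex.conj_I]
  have e : cexp (-I * (starRingEnd ℂ) z * (Λ * x)) * cexp (I * w * (Λ * x)) =
      cexp (I * (Λ * (w - (starRingEnd ℂ) z)) * x) := by
    rw [← Complex.exp_add]
    congr 1
    ring
  have e2 : (Real.sqrt (g0 x) : ℂ) ^ 2 = (g0 x : ℂ) := by
    have := GramAux.g0_nonneg hx.1.le hx.2
    rw [← Complex.ofReal_pow, Real.sq_sqrt this]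
  rw [← e2, ← e]
  ring

theorem gram1 (Λ : ℝ) : ∃ (E : Type) (_ : NormedAddCommGroup E) (_ : InnerProductSpace ℂ E)
    (g : ℂ → E), ∀ z w, inner ℂ (g z) (g w) = kap (Λ * (w - (starRingEnd ℂ) z)) := by
  refine ⟨Lp ℂ 2 mu1, inferInstance, inferInstance, fun z => (gf_memLp Λ z).toLp _, fun z w => ?_⟩
  rw [L2.inner_def, ← gf_inner]
  apply integral_congr_ae
  filter_upwards [(gf_memLp Λ z).coeFn_toLp, (gf_memLp Λ w).coeFn_toLp] with p h1 h2
  rw [h1, h2, RCLike.inner_apply, mul_comm]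

/-- the kernel at imaginary points -/
lemma kap_im_le {Λ L : ℝ} (hΛ : 0 ≤ Λ) (hL : Λ ≤ L) (z : ℂ) :
    ‖kap (Λ * ((starRingEnd ℂ) z - z))‖ ≤ Real.exp (|z.im| * L) := by
  have h1 : ∀ x ∈ Set.Ioc (-1 / 2 : ℝ) (1 / 2),
      ‖(g0 x : ℂ) * cexp (I * (Λ * ((starRingEnd ℂ) z - z)) * x)‖ ≤ Real.exp (|z.im| * L) * g0 x := by
    intro x hx
    have hg := GramAux.g0_nonneg hx.1.le hx.2
    rw [norm_mul, Complex.norm_real, Real.norm_eq_abs, abs_of_nonneg hg, Complex.norm_exp, mul_comm]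
    gcongr
    have e1 : (I * (Λ * ((starRingEnd ℂ) z - z)) * x).re = 2 * Λ * z.im * x := by
      simp [Complex.mul_re, Complex.mul_im]; ring
    rw [e1]
    have hx2 : |x| ≤ 1 / 2 := abs_le.2 ⟨by linarith [hx.1], hx.2⟩
    calc 2 * Λ * z.im * x ≤ |2 * Λ * z.im * x| := le_abs_self _
      _ = 2 * Λ * |z.im| * |x| := by
        rw [abs_mul, abs_mul, abs_mul, abs_of_nonneg hΛ]; norm_num
      _ ≤ 2 * Λ * |z.im| * (1 / 2) := by gcongr
      _ = |z.im| * Λ := by ring
      _ ≤ |z.im| * L := by gcongr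
  have h2 : (∫ x in (-1 / 2 : ℝ)..(1 / 2), g0 x) = 1 := by
    have h3 := GramAux.kap_re 0
    rw [show ((0 : ℝ) : ℂ) = 0 by norm_num, kap_zero] at h3
    simp only [zero_mul, Real.cos_zero, mul_one, Complex.one_re] at h3
    exact h3.symm
  unfold kap
  have h4 := intervalIntegral.norm_integral_le_of_norm_le (μ := volume)
    (a := (-1 / 2 : ℝ)) (b := 1 / 2)
    (f := fun x : ℝ => (g0 x : ℂ) * cexp (I * (Λ * ((starRingEnd ℂ) z - z)) * x))
    (g := fun x => Real.exp (|z.im| * L) * g0 x) (by norm_num)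
    (Filter.Eventually.of_forall fun x hx => h1 x hx)
    (by
      apply Continuous.intervalIntegrable
      have := GramAux.g0_cont
      fun_prop)
  rw [intervalIntegral.integral_const_mul, h2, mul_one] at h4
  exact h4

end Pool.Agent.Y833.SW
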