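import Pool.Agent.Y745.SW.DefsC
import Pool.Agent.Y833.SW.Om
import Pool.Agent.Y833.SW.Cls

set_option autoImplicit false

/-!
SW project (helper745, MP_6bc78b_nt): the local trace inequality with weights.
-/

open scoped BigOperators ComplexConjugate

namespace Pool.Agent.Y833.SW

open H370 TH803UC TH803CL Pool.Agent.Y745.SW

lemma norm_v_le (u : ℂ) : ‖u‖ ≤ 1 + ‖1 - u‖ := by
  calc ‖u‖ = ‖1 - (1 - u)‖ := by congr 1; ring
    _ ≤ ‖(1:ℂ)‖ + ‖1 - u‖ := norm_sub_le _ _
    _ = 1 + ‖1 - u‖ := by rw [norm_one]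

lemma re_v (u : ℂ) : 1 - ‖1 - u‖ ≤ u.re ∧ u.re ≤ 1 + ‖1 - u‖ := by
  have h := Complex.abs_re_le_norm (1 - u)
  rw [Complex.sub_re, Complex.one_re] at h
  have := abs_le.1 h
  constructor <;> linarith [this.1, this.2]

lemma re_om {o u : ℂ} (h : o ^ 2 = u) (h0 : 0 ≤ o.re) : 1 - ‖1 - u‖ ≤ o.re := by
  have h1 : 1 - u = (1 - o) * (1 + o) := by rw [← h]; ring
  have h2 : 1 ≤ ‖1 + o‖ := by
    have := Complex.re_le_norm (1 + o)
    rw [Complex.add_re, Complex.one_re] at this
    linarith
  have h3 : ‖1 - o‖ ≤ ‖1 - u‖ := by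
    rw [h1, norm_mul]
    exact le_mul_of_one_le_right (norm_nonneg _) h2
  linarith [(re_v o).1]

/-- the lower bound in one small cluster -/
lemma smallC (C : Finset ℂ) (c : ℂ → ℝ) (hc : ∀ z, 0 ≤ c z) (om v : ℂ → ℂ)
    (h2 : ∀ z, om z ^ 2 = v z) (hre : ∀ z, 0 ≤ (om z).re) (W η : ℝ) (hW : W = ∑ z ∈ C, c z)
    (hW2 : 2 ≤ W) (hη0 : 0 ≤ η) (hη1 : η ≤ 1) (A B : ℂ → ℂ → ℝ)
    (hA : ∀ z ∈ C, ∀ w ∈ C, ((starRingEnd ℂ) (om z) * om w).re - ‖om z‖ * ‖om w‖ * η ≤ A z w)
    (hB : ∀ z ∈ C, ∀ w ∈ C, (om z * om w).re - ‖om z‖ * ‖om w‖ * η ≤ B z w)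
    (hA' : ∀ z ∈ C, A z z ≤ ‖v z‖ * (1 + η)) :
    2 * ∑ z ∈ C, c z * (v z).re - 10 * ∑ z ∈ C, c z * (2 * ‖1 - v z‖ + η) ≤
      ∑ z ∈ C, ∑ w ∈ C, 2 / W * (c z * c w) * (A z w + B z w) - 2 ^ 2 -
        ∑ z ∈ C, 2 * c z * (A z z - (v z).re) := by
  have hW0 : 0 < W := by linarith
  set Sg := ∑ z ∈ C, c z * (om z).re with hSg
  set M := ∑ z ∈ C, c z * ‖om z‖ with hM
  set V := ∑ z ∈ C, c z * ‖v z‖ with hV
  set R := ∑ z ∈ C, c z * (v z).re with hR
  set E := ∑ z ∈ C, c z * ‖1 - v z‖ with hE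
  have hE0 : 0 ≤ E := Finset.sum_nonneg fun z _ => mul_nonneg (hc z) (norm_nonneg _)
  -- the double sum
  have d1 : 2 / W * (2 * (Sg * Sg) - 2 * η * (M * M)) ≤
      ∑ z ∈ C, ∑ w ∈ C, 2 / W * (c z * c w) * (A z w + B z w) := by
    have e1 : 2 / W * (2 * (Sg * Sg) - 2 * η * (M * M)) =
        ∑ z ∈ C, ∑ w ∈ C, 2 / W * (c z * c w) *
          (2 * ((om z).re * (om w).re) - 2 * η * (‖om z‖ * ‖om w‖)) := by
      rw [hSg, hM, Finset.sum_mul_sum, Finset.sum_mul_sum, Finset.mul_sum, Finset.mul_sum,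
        ← Finset.sum_sub_distrib, Finset.mul_sum]
      refine Finset.sum_congr rfl fun z _ => ?_
      rw [Finset.mul_sum, Finset.mul_sum, ← Finset.sum_sub_distrib, Finset.mul_sum]
      refine Finset.sum_congr rfl fun w _ => ?_
      ring
    rw [e1]
    refine Finset.sum_le_sum fun z hz => Finset.sum_le_sum fun w hw => ?_
    have h3 : 0 ≤ 2 / W * (c z * c w) :=
      mul_nonneg (div_nonneg (by norm_num) hW0.le) (mul_nonneg (hc z) (hc w))
    refine mul_le_mul_of_nonneg_left ?_ h3
    have a1 := hA z hz w hw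
    have a2 := hB z hz w hw
    simp only [Complex.mul_re, Complex.conj_re, Complex.conj_im] at a1 a2
    linarith
  have d2 : M * M ≤ W * V := by
    have h4 := Finset.sum_mul_sq_le_sq_mul_sq C (fun z => Real.sqrt (c z))
      (fun z => Real.sqrt (c z) * ‖om z‖)
    have e1 : ∑ z ∈ C, Real.sqrt (c z) * (Real.sqrt (c z) * ‖om z‖) = M := by
      refine Finset.sum_congr rfl fun z _ => ?_
      rw [← mul_assoc, Real.mul_self_sqrt (hc z)]
    have e2 : ∑ z ∈ C, Real.sqrt (c z) ^ 2 = W := by
      rw [hW]; exact Finset.sum_congr rfl fun z _ => Real.sq_sqrt (hc z)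
    have e3 : ∑ z ∈ C, (Real.sqrt (c z) * ‖om z‖) ^ 2 = V := by
      refine Finset.sum_congr rfl fun z _ => ?_
      rw [mul_pow, Real.sq_sqrt (hc z), ← norm_pow, h2]
    rw [e1, e2, e3] at h4
    nlinarith
  have d3 : 2 / W * (2 * (Sg * Sg)) ≥ 8 * Sg - 4 * W := by
    have : 2 / W * (2 * (Sg * Sg)) - (8 * Sg - 4 * W) = 4 / W * (Sg - W) ^ 2 := by
      field_simp; ring
    have h5 : 0 ≤ 4 / W * (Sg - W) ^ 2 := by positivity
    linarith
  have d4 : 2 / W * (2 * η * (M * M)) ≤ 4 * η * V := by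
    calc 2 / W * (2 * η * (M * M)) ≤ 2 / W * (2 * η * (W * V)) := by gcongr
      _ = 4 * η * V := by field_simp; ring
  have d5 : W - E ≤ Sg := by
    rw [hW, hE, hSg, ← Finset.sum_sub_distrib]
    refine Finset.sum_le_sum fun z _ => ?_
    have := mul_le_mul_of_nonneg_left (re_om (h2 z) (hre z)) (hc z)
    linarith
  have d6 : V ≤ W + E := by
    rw [hW, hE, hV, ← Finset.sum_add_distrib]
    refine Finset.sum_le_sum fun z _ => ?_
    have := mul_le_mul_of_nonneg_left (norm_v_le (v z)) (hc z)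
    linarith
  have d7 : ∑ z ∈ C, 2 * c z * (A z z - (v z).re) ≤ 2 * (1 + η) * V - 2 * R := by
    rw [hV, hR, Finset.mul_sum, Finset.mul_sum, ← Finset.sum_sub_distrib]
    refine Finset.sum_le_sum fun z hz => ?_
    have := mul_le_mul_of_nonneg_left (hA' z hz) (hc z)
    nlinarith
  have d8 : ∑ z ∈ C, c z * (2 * ‖1 - v z‖ + η) = 2 * E + η * W := by
    rw [hW, hE, Finset.mul_sum, Finset.mul_sum, ← Finset.sum_add_distrib]
    refine Finset.sum_congr rfl fun z _ => ?_
    ring
  rw [d8]
  have h6 : η * V ≤ η * (W + E) := mul_le_mul_of_nonneg_left d6 hη0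
  have h7 : η * E ≤ E := by nlinarith
  have h8 : 2 / W * (2 * (Sg * Sg) - 2 * η * (M * M)) =
      2 / W * (2 * (Sg * Sg)) - 2 / W * (2 * η * (M * M)) := by ring
  rw [h8] at d1
  have h9 : 0 ≤ η * W := by positivity
  nlinarith

theorem t_DI : P_DI := by
  intro Z m v th Λ L d η1 t hZ hm1 hmc hv hr hΛ hΛL hL hd hdL hη0 hη1 hkap hth
  obtain ⟨om, hom2, homc, homre⟩ := exists_om v hv hr
  obtain ⟨E, _, _, g, hg⟩ := gram1 Λ
  obtain ⟨π, hπ⟩ := clusters Z hZ m hm1 hd
  set K : ℂ → ℂ → ℂ := fun z w => om z * om w * kap (Λ * (z - w)) with hK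
  have hk : ∀ z w, inner ℂ (om z • g z) (om w • g w) = K ((starRingEnd ℂ) z) w := by
    intro z w
    rw [inner_smul_left, inner_smul_right, hg]
    simp only [hK]
    rw [homc, ← kap_even (Λ * ((starRingEnd ℂ) z - w))]
    have : -(Λ * ((starRingEnd ℂ) z - w)) = Λ * (w - (starRingEnd ℂ) z) := by ring
    rw [this]; ring
  have hsym : ∀ z w, K z w = K w z := by
    intro z w
    simp only [hK]
    rw [← kap_even (Λ * (z - w))]
    have : -(Λ * (z - w)) = Λ * (w - z) := by ring
    rw [this]; ring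
  set κ : ℂ → ℝ := fun a => if |a.re - t| ≤ th |a.im| then (if Wc Z m π a = 1 then 1 else 2) else 0
    with hκ
  have hmain := clus K (fun z => om z • g z) hk hsym Z hZ m hm1 hmc π κ
    (fun a => by simp only [hκ]; split_ifs <;> norm_num)
    (fun a => by simp only [hκ]; split_ifs <;> norm_num)
  have hKK : ∀ z, K z z = v z := by
    intro z
    simp only [hK]
    rw [sub_self, mul_zero, kap_zero, mul_one, ← sq, hom2]
  have hn2 : ∀ z, ‖om z‖ * ‖om z‖ = ‖v z‖ := by
    intro z
    rw [← norm_mul, ← sq, hom2]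
  have hnc : ∀ z, ‖om ((starRingEnd ℂ) z)‖ = ‖om z‖ := by
    intro z; rw [homc, RCLike.norm_conj]
  have hKb : ∀ z, (K ((starRingEnd ℂ) z) z).re ≤ ‖v z‖ * Real.exp (|z.im| * L) := by
    intro z
    refine (Complex.re_le_norm _).trans ?_
    simp only [hK]
    rw [norm_mul, norm_mul, hnc, hn2]
    exact mul_le_mul_of_nonneg_left (kap_im_le hΛ hΛL z) (norm_nonneg _)
  have hpair : (∑ z ∈ Z, ∑ w ∈ Z, (m z : ℂ) * (m w : ℂ) * (v z * v w * kap (Λ * (z - w)) ^ 2)).re =
      (∑ z ∈ Z, ∑ w ∈ Z, (m z : ℂ) * (m w : ℂ) * (K z w) ^ 2).re := by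
    congr 1
    refine Finset.sum_congr rfl fun z _ => Finset.sum_congr rfl fun w _ => ?_
    simp only [hK]
    rw [← hom2 z, ← hom2 w]
    ring
  rw [hpair]
  set P := Z.filter (fun z => 0 ≤ z.im) with hP
  set cost : ℂ → ℝ := fun z => (if |z.re - t| ≤ th |z.im| + 2 * d then 2 * ‖1 - v z‖ + η1 else 0) +
        (if |z.re - t| ≤ th |z.im| - 2 * d then 0 else 2 * ‖v z‖ * Real.exp (|z.im| * L)) with hcost
  have hc1 : ∀ z, |z.re - t| ≤ th |z.im| + 2 * d → 2 * ‖1 - v z‖ + η1 ≤ cost z := by
    intro z h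
    simp only [hcost]
    rw [if_pos h]
    have : (0:ℝ) ≤ (if |z.re - t| ≤ th |z.im| - 2 * d then 0 else
      2 * ‖v z‖ * Real.exp (|z.im| * L)) := by split_ifs <;> positivity
    linarith
  have hc2 : ∀ z, ¬ (|z.re - t| ≤ th |z.im| - 2 * d) →
      2 * ‖v z‖ * Real.exp (|z.im| * L) ≤ cost z := by
    intro z h
    simp only [hcost]
    rw [if_neg h]
    have : (0:ℝ) ≤ (if |z.re - t| ≤ th |z.im| + 2 * d then 2 * ‖1 - v z‖ + η1 else 0) := by
      split_ifs <;> positivity
    linarith
  have hc0 : ∀ z, 0 ≤ cost z := by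
    intro z
    simp only [hcost]
    split_ifs <;> positivity
  -- one cluster
  have key : ∀ a ∈ P.image π, 2 * ∑ z ∈ Cl Z π a, cw m z * (v z).re -
      (if Wc Z m π a = 1 ∧ |a.re - t| ≤ th |a.im| then 1 else 0) -
      10 * ∑ z ∈ Cl Z π a, cw m z * cost z ≤
      ∑ z ∈ Cl Z π a, ∑ w ∈ Cl Z π a, κ a / Wc Z m π a * (cw m z * cw m w) *
          ((K ((starRingEnd ℂ) z) w).re + (K ((starRingEnd ℂ) z) ((starRingEnd ℂ) w)).re) - κ a ^ 2 -
          ∑ z ∈ Cl Z π a, 2 * cw m z * ((K ((starRingEnd ℂ) z) z).re - (K z z).re) := by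
    intro a ha
    by_cases hact : |a.re - t| ≤ th |a.im|
    · rcases hπ a ha with ⟨haZ, ha0, hC, hiso⟩ | ⟨hW2, haim, hCm⟩
      · -- a single point
        have hWa : Wc Z m π a = cw m a := by
          have : Wc Z m π a = ∑ z ∈ Cl Z π a, cw m z := rfl
          rw [this, hC, Finset.sum_singleton]
        rw [hC]
        simp only [Finset.sum_singleton]
        have hcost1 := hc1 a (by linarith)
        have hreC : (K ((starRingEnd ℂ) a) ((starRingEnd ℂ) a)).re = (v a).re := by
          rw [hKK, hv, Complex.conj_re]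
        rw [hreC, hKK]
        rcases Wc_int hm1 ha with h | h
        · have him : a.im = 0 := (Finset.mem_filter.1 (hiso h)).2.1
          have hc : (starRingEnd ℂ) a = a := Complex.conj_eq_iff_im.mpr him
          have hκa : κ a = 1 := by simp only [hκ]; rw [if_pos hact, if_pos h]
          rw [hκa, if_pos ⟨h, hact⟩, hc, hKK]
          rw [h] at hWa
          rw [h, ← hWa]
          have := hc0 a
          norm_num
          linarith
        · have h1 : Wc Z m π a ≠ 1 := fun h2 => by rw [h2] at h; norm_num at h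
          have hκa : κ a = 2 := by simp only [hκ]; rw [if_pos hact, if_neg h1]
          rw [hκa, if_neg (fun h3 => h1 h3.1)]
          rw [hWa] at h ⊢
          set w := cw m a
          set X := (K ((starRingEnd ℂ) a) a).re
          have hw0 : 0 < w := by linarith
          have e1 : 2 / w * (w * w) * (X + (v a).re) = 2 * w * (X + (v a).re) := by
            field_simp
          rw [e1]
          have e2 := (re_v (v a)).1
          have e3 : w * (1 - ‖1 - v a‖) ≤ w * (v a).re := mul_le_mul_of_nonneg_left e2 hw0.le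
          have e4 : w * (2 * ‖1 - v a‖ + η1) ≤ w * cost a := mul_le_mul_of_nonneg_left hcost1 hw0.le
          have e5 : 0 ≤ w * ‖1 - v a‖ := by positivity
          have e6 : 0 ≤ w * η1 := by positivity
          nlinarith
      · -- a small cluster
        have hW1 : Wc Z m π a ≠ 1 := fun h => by rw [h] at hW2; norm_num at hW2
        have hκa : κ a = 2 := by simp only [hκ]; rw [if_pos hact, if_neg hW1]
        rw [hκa, if_neg (fun h3 => hW1 h3.1)]
        have him : ∀ z ∈ Cl Z π a, ‖(starRingEnd ℂ) z - z‖ ≤ 2 * d := by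
          intro z hz
          have e1 : (starRingEnd ℂ) z - z = ((-(2 * z.im) : ℝ) : ℂ) * Complex.I := by
            apply Complex.ext
            · simp
            · simp; ring
          rw [e1, norm_mul, Complex.norm_I, mul_one, Complex.norm_real, Real.norm_eq_abs, abs_neg,
            abs_mul, abs_of_pos (by norm_num : (0 : ℝ) < 2)]
          linarith [(hCm z hz).1]
        have hzw : ∀ z ∈ Cl Z π a, ∀ w ∈ Cl Z π a, ‖z - w‖ ≤ 4 * d := by
          intro z hz w hw
          have a1 := (hCm z hz).2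
          have a2 := (hCm w hw).2
          rw [norm_sub_rev] at a2
          calc ‖z - w‖ = ‖(z - a) + (a - w)‖ := by congr 1; ring
            _ ≤ ‖z - a‖ + ‖a - w‖ := norm_add_le _ _
            _ ≤ 4 * d := by linarith
        have h1 : ∀ z ∈ Cl Z π a, ∀ w ∈ Cl Z π a, ‖kap (Λ * ((starRingEnd ℂ) z - w)) - 1‖ ≤ η1 := by
          intro z hz w hw
          apply hkap
          calc ‖(starRingEnd ℂ) z - w‖ = ‖((starRingEnd ℂ) z - z) + (z - w)‖ := by congr 1; ring
            _ ≤ ‖(starRingEnd ℂ) z - z‖ + ‖z - w‖ := norm_add_le _ _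
            _ ≤ 6 * d := by linarith [him z hz, hzw z hz w hw]
        have h2 : ∀ z ∈ Cl Z π a, ∀ w ∈ Cl Z π a,
            ‖kap (Λ * ((starRingEnd ℂ) z - (starRingEnd ℂ) w)) - 1‖ ≤ η1 := by
          intro z hz w hw
          apply hkap
          rw [← map_sub, RCLike.norm_conj]
          linarith [hzw z hz w hw]
        have hpert : ∀ X q : ℂ, ‖q - 1‖ ≤ η1 → X.re - ‖X‖ * η1 ≤ (X * q).re := by
          intro X q hq
          have e1 : X * q = X + X * (q - 1) := by ring
          rw [e1, Complex.add_re]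
          have e2 := Complex.abs_re_le_norm (X * (q - 1))
          have e3 : ‖X * (q - 1)‖ ≤ ‖X‖ * η1 := by
            rw [norm_mul]; exact mul_le_mul_of_nonneg_left hq (norm_nonneg _)
          linarith [(abs_le.1 (e2.trans e3)).1]
        have hs := smallC (Cl Z π a) (fun z => cw m z) (fun z => cw_nonneg m z) om v hom2 homre
          (Wc Z m π a) η1 rfl hW2 hη0 hη1
          (fun z w => (K ((starRingEnd ℂ) z) w).re)
          (fun z w => (K ((starRingEnd ℂ) z) ((starRingEnd ℂ) w)).re)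
          (fun z hz w hw => by
            have := hpert ((starRingEnd ℂ) (om z) * om w) _ (h1 z hz w hw)
            rw [norm_mul, RCLike.norm_conj] at this
            simp only [hK]
            rw [homc]
            exact this)
          (fun z hz w hw => by
            have := hpert ((starRingEnd ℂ) (om z) * (starRingEnd ℂ) (om w)) _ (h2 z hz w hw)
            rw [norm_mul, RCLike.norm_conj, RCLike.norm_conj, ← map_mul, Complex.conj_re] at this
            simp only [hK]
            rw [homc, homc, ← map_mul]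
            exact this)
          (fun z hz => by
            refine (Complex.re_le_norm _).trans ?_
            simp only [hK]
            rw [norm_mul, norm_mul, hnc, hn2]
            refine mul_le_mul_of_nonneg_left ?_ (norm_nonneg _)
            have e1 := h1 z hz z hz
            have e2 := norm_v_le (kap (Λ * ((starRingEnd ℂ) z - z)))
            rw [norm_sub_rev] at e2
            linarith)
        have hcc : ∑ z ∈ Cl Z π a, cw m z * (2 * ‖1 - v z‖ + η1) ≤
            ∑ z ∈ Cl Z π a, cw m z * cost z := by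
          refine Finset.sum_le_sum fun z hz => mul_le_mul_of_nonneg_left ?_ (cw_nonneg m z)
          apply hc1
          have b1 := (hCm z hz).1
          have b2 := (hCm z hz).2
          have b3 : th |z.im| = th |a.im| := by
            rw [hth _ (abs_nonneg _) b1, hth _ (abs_nonneg _) haim]
          rw [b3]
          have b4 : |z.re - a.re| ≤ 2 * d := by
            rw [← Complex.sub_re]
            exact (Complex.abs_re_le_norm _).trans b2.le
          calc |z.re - t| = |(z.re - a.re) + (a.re - t)| := by congr 1; ring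
            _ ≤ |z.re - a.re| + |a.re - t| := abs_add_le _ _
            _ ≤ th |a.im| + 2 * d := by linarith
        simp only [hKK]
        linarith
    · -- an inactive cluster
      have hκa : κ a = 0 := by simp only [hκ]; rw [if_neg hact]
      rw [hκa, if_neg (fun h3 => hact h3.2)]
      have e1 : ∑ z ∈ Cl Z π a, ∑ w ∈ Cl Z π a, 0 / Wc Z m π a * (cw m z * cw m w) *
          ((K ((starRingEnd ℂ) z) w).re + (K ((starRingEnd ℂ) z) ((starRingEnd ℂ) w)).re) = 0 := by
        refine Finset.sum_eq_zero fun z _ => Finset.sum_eq_zero fun w _ => ?_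
        rw [zero_div, zero_mul, zero_mul]
      rw [e1]
      have hbig : ∀ z ∈ Cl Z π a, ¬ (|z.re - t| ≤ th |z.im| - 2 * d) := by
        intro z hz hle
        apply hact
        rcases hπ a ha with ⟨haZ, ha0, hC, hiso⟩ | ⟨hW2, haim, hCm⟩
        · rw [hC, Finset.mem_singleton] at hz
          rw [hz] at hle
          linarith
        · have b1 := (hCm z hz).1
          have b2 := (hCm z hz).2
          have b3 : th |z.im| = th |a.im| := by
            rw [hth _ (abs_nonneg _) b1, hth _ (abs_nonneg _) haim]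
          rw [b3] at hle
          have b4 : |a.re - z.re| ≤ 2 * d := by
            rw [abs_sub_comm, ← Complex.sub_re]
            exact (Complex.abs_re_le_norm _).trans b2.le
          calc |a.re - t| = |(a.re - z.re) + (z.re - t)| := by congr 1; ring
            _ ≤ |a.re - z.re| + |z.re - t| := abs_add_le _ _
            _ ≤ th |a.im| := by linarith
      have hsum : 2 * ∑ z ∈ Cl Z π a, cw m z * (v z).re - 10 * ∑ z ∈ Cl Z π a, cw m z * cost z ≤
          - ∑ z ∈ Cl Z π a, 2 * cw m z * ((K ((starRingEnd ℂ) z) z).re - (K z z).re) := by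
        rw [Finset.mul_sum, Finset.mul_sum, ← Finset.sum_sub_distrib, ← Finset.sum_neg_distrib]
        refine Finset.sum_le_sum fun z hz => ?_
        have a1 := hc2 z (hbig z hz)
        have a2 := hKb z
        have a3 := cw_nonneg m z
        rw [hKK]
        have a4 : cw m z * (K ((starRingEnd ℂ) z) z).re ≤ cw m z * cost z := by
          refine mul_le_mul_of_nonneg_left ?_ a3
          have : 0 ≤ ‖v z‖ * Real.exp (|z.im| * L) := by positivity
          linarith
        have a5 : 0 ≤ cw m z * cost z := mul_nonneg a3 (hc0 z)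
        linarith
      norm_num
      linarith
  -- the sum over the clusters
  have hsum := Finset.sum_le_sum key
  rw [Finset.sum_sub_distrib, Finset.sum_sub_distrib, ← Finset.mul_sum, ← Finset.mul_sum] at hsum
  have f1 : ∑ a ∈ P.image π, ∑ z ∈ Cl Z π a, cw m z * (v z).re = ∑ z ∈ P, cw m z * (v z).re :=
    (sum_fib1 P π (fun z => cw m z * (v z).re)).symm
  have f2 : ∑ a ∈ P.image π, ∑ z ∈ Cl Z π a, cw m z * cost z = ∑ z ∈ P, cw m z * cost z :=
    (sum_fib1 P π (fun z => cw m z * cost z)).symm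
  rw [f1, f2, Finset.sum_boole] at hsum
  have hcard : (((P.image π).filter (fun a => Wc Z m π a = 1 ∧ |a.re - t| ≤ th |a.im|)).card : ℝ) ≤
      (((isoP Z m d).filter (fun z => |z.re - t| ≤ th 0)).card : ℝ) := by
    have : (P.image π).filter (fun a => Wc Z m π a = 1 ∧ |a.re - t| ≤ th |a.im|) ⊆
        (isoP Z m d).filter (fun z => |z.re - t| ≤ th 0) := by
      intro a ha
      rw [Finset.mem_filter] at ha
      obtain ⟨ha1, hW, hact⟩ := ha
      have hi : a ∈ isoP Z m d := by
        rcases hπ a ha1 with ⟨-, -, -, hiso⟩ | ⟨hW2, -, -⟩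
        · exact hiso hW
        · rw [hW] at hW2; norm_num at hW2
      have him : a.im = 0 := (Finset.mem_filter.1 hi).2.1
      rw [Finset.mem_filter]
      refine ⟨hi, ?_⟩
      rwa [him, abs_zero] at hact
    exact_mod_cast Finset.card_le_card this
  linarith

end Pool.Agent.Y833.SW
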